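import Pool.Agent.L7h31.IE.Stm

set_option autoImplicit false

/-!
# Project IE, part COUNT (helper23)
-/

namespace Pool.Agent.L7h23.IE

open Finset
open Pool.Agent.L7h31.IE

open scoped InnerProductSpace

lemma card_pair {k : ℕ} (I : Finset (Fin k)) :
    Fintype.card {a : Fin k × Bool // a.1 ∈ I} = 2 * I.card := by
  classical
  rw [Fintype.card_subtype]
  have : (univ.filter fun a : Fin k × Bool => a.1 ∈ I) = I ×ˢ (univ : Finset Bool) := by
    ext a
    simp
  rw [this, card_product]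
  simp [mul_comm]

lemma lift_sum_neg {d : ℕ} (c : E d) {r : ℝ} (hr : 0 < r) (y z : E d) (hyz : y ≠ z)
    (hy : dist y c ≤ r) (hz : dist z c ≤ r) :
    L (lift c r y + lift c r z) (lift c r y + lift c r z) < 0 := by
  set u := r⁻¹ • (y - c) with hu
  set v := r⁻¹ • (z - c) with hv
  have hnorm : ∀ w : E d, dist w c ≤ r → ‖r⁻¹ • (w - c)‖ ≤ 1 := by
    intro w hw
    rw [norm_smul, norm_inv, Real.norm_of_nonneg hr.le, inv_mul_le_iff₀ hr, mul_one,
      ← dist_eq_norm]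
    exact hw
  have h1 : ‖u‖ ≤ 1 := hnorm y hy
  have h2 : ‖v‖ ≤ 1 := hnorm z hz
  have h3 : 0 < ‖u - v‖ := by
    rw [norm_pos_iff]
    intro h
    apply hyz
    have h4 : r⁻¹ • (y - z) = 0 := by
      rw [← h, hu, hv, ← smul_sub]
      congr 1
      abel
    rw [smul_eq_zero] at h4
    rcases h4 with h4 | h4
    · exact absurd h4 (inv_ne_zero hr.ne')
    · exact sub_eq_zero.1 h4
  have h5 : L (lift c r y + lift c r z) (lift c r y + lift c r z) = ‖u + v‖ ^ 2 - 4 := by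
    unfold L lift
    simp only [Prod.fst_add, Prod.snd_add]
    rw [real_inner_self_eq_norm_sq, ← hu, ← hv]
    norm_num
  rw [h5]
  have h6 := parallelogram_law_with_norm ℝ u v
  have h7 : ‖u‖ * ‖u‖ ≤ 1 := by nlinarith [norm_nonneg u]
  have h8 : ‖v‖ * ‖v‖ ≤ 1 := by nlinarith [norm_nonneg v]
  nlinarith

theorem s_COUNT (hA : S_ALIVE) (hL : S_LIN) (hC : S_CONE) : S_COUNT := by
  classical
  obtain ⟨K, hK⟩ := hC
  refine ⟨K, ?_⟩
  intro p k W x t c r 𝒜 hp hconf hr h𝒜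
  rcases 𝒜.eq_empty_or_nonempty with rfl | ⟨I₁, hI₁⟩
  · simp
  have hne1 : I₁.Nonempty := by
    rw [← card_pos, (h𝒜 I₁ hI₁).1]
    omega
  obtain ⟨j₁, hj₁⟩ := hne1
  haveI : Nonempty (Fin k × Bool) := ⟨(j₁, true)⟩
  -- the data of `S_ALIVE`
  have hface : ∀ I : Finset (Fin k), I.card = p → ∀ i : {a : Fin k × Bool // a.1 ∈ I},
      IsFace W (insert (t I) {y | ∃ j : {a : Fin k × Bool // a.1 ∈ I}, j ≠ i ∧ y = x j.1}) := by
    intro I hI i
    have h1 := hconf.face I hI i.1 i.2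
    have h2 : {y | ∃ c : Fin k × Bool, c.1 ∈ I ∧ c ≠ i.1 ∧ y = x c} =
        {y | ∃ j : {a : Fin k × Bool // a.1 ∈ I}, j ≠ i ∧ y = x j.1} := by
      ext y
      constructor
      · rintro ⟨c, hc, hci, rfl⟩
        exact ⟨⟨c, hc⟩, fun h => hci (congrArg Subtype.val h), rfl⟩
      · rintro ⟨j, hj, rfl⟩
        exact ⟨j.1, j.2, fun h => hj (Subtype.ext h), rfl⟩
    rw [h2] at h1
    exact h1
  have hcard : ∀ I : Finset (Fin k), I.card = p →
      Fintype.card {a : Fin k × Bool // a.1 ∈ I} = 2 * p := by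
    intro I hI
    rw [card_pair, hI]
  have halive : ∀ I : Finset (Fin k), I ∈ 𝒜 → ∃ (i : Fin k × Bool) (A B : E (2 * p) × ℝ),
      i.1 ∈ I ∧ L A A = 1 ∧ L B B = 1 ∧ L A B ≤ 1 / 3 ∧
      (∀ j : Fin k × Bool, j.1 ∈ I → L A (lift c r (x j)) = 0) ∧
      (∀ j : Fin k × Bool, j.1 ∈ I → j ≠ i → L B (lift c r (x j)) = 0) ∧
      (∀ j : Fin k × Bool, j.1 ∉ I → L A (lift c r (x j)) < 0) ∧
      (∀ j : Fin k × Bool, j.1 ∉ I → L B (lift c r (x j)) < 0) := by
    intro I hI
    obtain ⟨hI1, hI2, hI3⟩ := h𝒜 I hI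
    obtain ⟨i, A, B, h1, h2, h3, h4, h5, h6, h7⟩ := hA (2 * p) {a : Fin k × Bool // a.1 ∈ I} W
      (t I) (fun a => x a.1) c r (by omega) (hcard I hI1) (hconf.tmem I hI1)
      (fun i => hconf.xmem i.1) (fun i => (hconf.txne I hI1 i.1).symm)
      (fun i j h => Subtype.ext (hconf.xinj h)) hconf.vert (hface I hI1) hr hI2
      (fun i => hI3 i.1 i.2)
    have hne : ∀ j : Fin k × Bool, j.1 ∉ I → ∀ b : {a : Fin k × Bool // a.1 ∈ I}, x j ≠ x b.1 := by
      intro j hj b h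
      apply hj
      rw [hconf.xinj h]
      exact b.2
    refine ⟨i.1, A, B, i.2, h1, h2, h3, fun j hj => h4 ⟨j, hj⟩, fun j hj hji => ?_,
      fun j hj => ?_, fun j hj => ?_⟩
    · exact h5 ⟨j, hj⟩ fun h => hji (congrArg Subtype.val h)
    · exact h6 (x j) (hconf.xmem j) (hconf.txne I hI1 j).symm (hne j hj)
    · exact h7 (x j) (hconf.xmem j) (hconf.txne I hI1 j).symm (fun b _ => hne j hj b)
  choose! a A B ha hAA hBB hAB hA0 hB0 hA1 hB1 using halive
  -- the fibres of the map `I ↦ I.erase (a I).1`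
  have himg : (𝒜.image fun I => I.erase (a I).1).card ≤ k.choose (p - 1) := by
    have h1 : (𝒜.image fun I => I.erase (a I).1) ⊆ powersetCard (p - 1) (univ : Finset (Fin k)) := by
      intro J hJ
      rw [mem_image] at hJ
      obtain ⟨I, hI, rfl⟩ := hJ
      rw [mem_powersetCard]
      refine ⟨subset_univ _, ?_⟩
      rw [card_erase_of_mem (ha I hI), (h𝒜 I hI).1]
    refine (card_le_card h1).trans ?_
    rw [card_powersetCard, card_univ, Fintype.card_fin]
  have hfib : ∀ J ∈ 𝒜.image (fun I => I.erase (a I).1),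
      (𝒜.filter fun I => I.erase (a I).1 = J).card ≤ K := by
    intro J hJ
    rw [mem_image] at hJ
    obtain ⟨I₀, hI₀, hJ₀⟩ := hJ
    set 𝒝 := 𝒜.filter fun I => I.erase (a I).1 = J with h𝒝
    let f : Fin 𝒝.card ≃ 𝒝 := 𝒝.equivFin.symm
    have hf : ∀ i, (f i).1 ∈ 𝒜 ∧ (f i).1.erase (a (f i).1).1 = J := by
      intro i
      exact mem_filter.1 (f i).2
    have hJc : J.card = p - 1 := by
      rw [← hJ₀, card_erase_of_mem (ha I₀ hI₀), (h𝒜 I₀ hI₀).1]
    have hJne : J.Nonempty := by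
      rw [← card_pos, hJc]
      omega
    obtain ⟨j₀, hj₀⟩ := hJne
    have hJI₀ : J ⊆ I₀ := by
      rw [← hJ₀]
      exact erase_subset _ _
    have hlin := hL (2 * p) {a : Fin k × Bool // a.1 ∈ I₀} W (t I₀) (fun a => x a.1) c r
      (hconf.tmem I₀ (h𝒜 I₀ hI₀).1) (fun i => hconf.xmem i.1)
      (fun i => (hconf.txne I₀ (h𝒜 I₀ hI₀).1 i.1).symm)
      (fun i j h => Subtype.ext (hconf.xinj h)) hr (hface I₀ (h𝒜 I₀ hI₀).1)
    have hlin' : LinearIndependent ℝ
        (fun i : {a : Fin k × Bool // a.1 ∈ J} => lift c r (x i.1)) :=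
      hlin.comp (fun i : {a : Fin k × Bool // a.1 ∈ J} =>
        (⟨i.1, hJI₀ i.2⟩ : {a : Fin k × Bool // a.1 ∈ I₀}))
        (fun i j h => Subtype.ext (congrArg (fun b => b.1) h))
    have hball : ∀ b : Fin k × Bool, b.1 ∈ J → dist (x b) c ≤ r := fun b hb =>
      (h𝒜 I₀ hI₀).2.2 b (hJI₀ hb)
    have hmem : ∀ i b, b ∈ J → b ∈ (f i).1 := by
      intro i b hb
      rw [← (hf i).2] at hb
      exact mem_of_mem_erase hb
    have hnotin : ∀ i j, j ≠ i → (a (f j).1).1 ∉ (f i).1 := by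
      intro i j hji hcon
      have h1 : (a (f j).1).1 ∉ J := by
        rw [← (hf j).2]
        exact notMem_erase _ _
      have h2 : (a (f j).1).1 = (a (f i).1).1 := by
        by_contra hne
        apply h1
        rw [← (hf i).2]
        exact mem_erase.2 ⟨hne, hcon⟩
      have h3 : (f i).1 = (f j).1 := by
        rw [← insert_erase (ha _ (hf i).1), ← insert_erase (ha _ (hf j).1), (hf i).2, (hf j).2, h2]
      exact hji (f.injective (Subtype.ext h3.symm))
    refine hK (2 * p) {a : Fin k × Bool // a.1 ∈ J} (fun i => lift c r (x i.1))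
      (lift c r (x (j₀, false)) + lift c r (x (j₀, true))) ?_ hlin' ?_ ?_ 𝒝.card
      (fun i => A (f i).1) (fun i => B (f i).1)
      (fun i => lift c r (x ((a (f i).1).1, !(a (f i).1).2)))
      (fun i b => hA0 _ (hf i).1 b.1 (hmem i b.1.1 b.2))
      (fun i b => hB0 _ (hf i).1 b.1 (hmem i b.1.1 b.2) ?_)
      (fun i => hAA _ (hf i).1) (fun i => hBB _ (hf i).1) (fun i => hAB _ (hf i).1)
      (fun i => hA0 _ (hf i).1 _ (ha _ (hf i).1))
      (fun i => hB0 _ (hf i).1 _ (ha _ (hf i).1) ?_)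
      (fun i j hji => (hA1 _ (hf i).1 ((a (f j).1).1, !(a (f j).1).2) (hnotin i j hji)).le)
      (fun i j hji => hB1 _ (hf i).1 ((a (f j).1).1, !(a (f j).1).2) (hnotin i j hji))
    · rw [card_pair, hJc]
      omega
    · exact Submodule.add_mem _ (Submodule.subset_span ⟨⟨(j₀, false), hj₀⟩, rfl⟩)
        (Submodule.subset_span ⟨⟨(j₀, true), hj₀⟩, rfl⟩)
    · refine lift_sum_neg c hr _ _ (fun h => ?_) (hball _ hj₀) (hball _ hj₀)
      have := hconf.xinj h
      simp at this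
    · intro h
      have h1 : b.1.1 ∈ (f i).1.erase (a (f i).1).1 := by
        rw [(hf i).2]
        exact b.2
      rw [h] at h1
      exact notMem_erase _ _ h1
    · intro h
      have h1 := congrArg Prod.snd h
      simp at h1
  calc 𝒜.card ≤ K * (𝒜.image fun I => I.erase (a I).1).card :=
        card_le_mul_card_image 𝒜 K hfib
    _ ≤ K * k.choose (p - 1) := Nat.mul_le_mul_left K himg

end Pool.Agent.L7h23.IE
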