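import Pool.Agent.L7h31.IE.Stm

set_option autoImplicit false

/-!
# Project IE, part EX (helper23): existence of the polytopes
-/

namespace Pool.Agent.L7h23.IE

open Finset
open Pool.Agent.L7h31.IE

open scoped InnerProductSpace

/-- a point of an affinely independent proper face is a vertex -/
lemma vert_of_face {d : ℕ} (V : Finset (E d)) (A : Set (E d)) (hA : IsFace V A)
    (hai : AffineIndependent ℝ (Subtype.val : A → E d)) (v : E d) (hv : v ∈ A) :
    v ∉ convexHull ℝ ((V : Set (E d)) \ {v}) := by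
  classical
  obtain ⟨l, hl⟩ := hA
  intro hcon
  rw [← coe_erase, Finset.mem_convexHull'] at hcon
  obtain ⟨w, w0, w1, w2⟩ := hcon
  have hvmax := ((hl v).1 hv).2
  -- all points with positive weight are in the face
  have hsum : ∑ y ∈ V.erase v, w y * (l v - l y) = 0 := by
    have h1 : l v = ∑ y ∈ V.erase v, w y * l y := by
      conv_lhs => rw [← w2]
      rw [map_sum]
      exact sum_congr rfl fun y _ => by rw [map_smul, smul_eq_mul]
    have h2 : ∑ y ∈ V.erase v, w y * (l v - l y) =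
        (∑ y ∈ V.erase v, w y) * l v - ∑ y ∈ V.erase v, w y * l y := by
      rw [sum_mul, ← sum_sub_distrib]
      exact sum_congr rfl fun y _ => by ring
    rw [h2, w1, ← h1]
    ring
  have hzero : ∀ y ∈ V.erase v, w y * (l v - l y) = 0 := by
    rw [sum_eq_zero_iff_of_nonneg] at hsum
    · exact hsum
    · intro y hy
      exact mul_nonneg (w0 y hy) (sub_nonneg.2 (hvmax y (mem_of_mem_erase hy)))
  have hface : ∀ y ∈ V.erase v, w y ≠ 0 → y ∈ A := by
    intro y hy hwy
    rcases mul_eq_zero.1 (hzero y hy) with h | h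
    · exact absurd h hwy
    · refine (hl y).2 ⟨mem_of_mem_erase hy, fun u hu => ?_⟩
      have := hvmax u hu
      linarith
  have hmem : v ∈ convexHull ℝ (A \ {v}) := by
    have h1 : v ∈ convexHull ℝ (((V.erase v).filter fun y => w y ≠ 0 : Finset (E d)) :
        Set (E d)) := by
      rw [Finset.mem_convexHull']
      refine ⟨w, fun y hy => w0 y (mem_of_mem_filter y hy), ?_, ?_⟩
      · rw [sum_filter_ne_zero]
        exact w1
      · have h5 : ∑ y ∈ (V.erase v).filter (fun y => w y ≠ 0), w y • y =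
            ∑ y ∈ V.erase v, w y • y := by
          refine sum_subset (filter_subset _ _) fun y hy hy' => ?_
          rw [mem_filter, not_and, not_not] at hy'
          rw [hy' hy, zero_smul]
        rw [h5, w2]
    refine convexHull_mono ?_ h1
    intro y hy
    rw [mem_coe, mem_filter] at hy
    exact ⟨hface y hy.1 hy.2, ne_of_mem_erase hy.1⟩
  have h2 := convexHull_subset_affineSpan (𝕜 := ℝ) (A \ {v}) hmem
  have h3 := hai.notMem_affineSpan_diff ⟨v, hv⟩ Set.univ
  apply h3
  have h4 : (Subtype.val : A → E d) '' (Set.univ \ {⟨v, hv⟩}) = A \ {v} := by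
    ext y
    constructor
    · rintro ⟨z, hz, rfl⟩
      exact ⟨z.2, fun h => hz.2 (Subtype.ext h)⟩
    · rintro ⟨hy, hyv⟩
      exact ⟨⟨y, hy⟩, ⟨trivial, fun h => hyv (congrArg Subtype.val h)⟩, rfl⟩
  rw [h4]
  exact h2

theorem s_EX (hS : S_SIMP) (hG : S_GEN) (hT : S_STACK) (hM : S_MOM) : S_EX := by
  classical
  intro p k hp hpk
  obtain ⟨x, xinj, hgen, hfun⟩ := hM p k (by omega)
  set X : Finset (E (2 * p)) := univ.image x with hX
  have hXm : ∀ y, y ∈ X ↔ ∃ c, y = x c := by
    intro y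
    rw [hX, mem_image]
    constructor
    · rintro ⟨c, _, h⟩
      exact ⟨c, h.symm⟩
    · rintro ⟨c, h⟩
      exact ⟨c, mem_univ c, h.symm⟩
  have hXg : GenPos X := hgen X hXm
  let κ : Type := {I : Finset (Fin k) // I.card = p}
  choose a ha0 ha1 ha2 using hfun
  let F : κ → Fin p × Bool → E (2 * p) := fun I i => x (I.1.orderEmbOfFin I.2 i.1, i.2)
  have hidx : ∀ (I : κ) (c : Fin k × Bool), c.1 ∈ I.1 → ∃ i : Fin p × Bool,
      (I.1.orderEmbOfFin I.2 i.1, i.2) = c := by
    intro I c hc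
    have h1 : c.1 ∈ Set.range (I.1.orderEmbOfFin I.2) := by
      rw [range_orderEmbOfFin]
      exact hc
    obtain ⟨i, hi⟩ := h1
    exact ⟨(i, c.2), Prod.ext hi rfl⟩
  have hFinj : ∀ I, Function.Injective (F I) := by
    intro I i j hij
    have h1 := xinj hij
    rw [Prod.mk.injEq] at h1
    exact Prod.ext ((I.1.orderEmbOfFin I.2).injective h1.1) h1.2
  have hFX : ∀ I i, F I i ∈ X := fun I i => (hXm _).2 ⟨_, rfl⟩
  have hcι : Fintype.card (Fin p × Bool) = 2 * p := by
    rw [Fintype.card_prod, Fintype.card_fin, Fintype.card_bool]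
    ring
  have hFai : ∀ I, AffineIndependent ℝ (F I) := by
    intro I
    have h1 := hXg (univ.image (F I)) (fun y hy => by
      rw [mem_image] at hy
      obtain ⟨i, _, rfl⟩ := hy
      exact hFX I i) (by
      refine card_image_le.trans ?_
      rw [card_univ, hcι]
      omega)
    let f : Fin p × Bool ↪ (univ.image (F I) : Finset (E (2 * p))) :=
      ⟨fun i => ⟨F I i, mem_image_of_mem _ (mem_univ i)⟩, fun i j h =>
        hFinj I (congrArg Subtype.val h)⟩
    exact h1.comp_embedding f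
  obtain ⟨U, hU1, hU2, hU3⟩ := hT (2 * p) (Fin p × Bool) κ X F (fun I => a I.1 I.2) (by omega) hcι
    hFX hFai
    (fun I i => ha0 I.1 I.2 _ (orderEmbOfFin_mem I.1 I.2 i.1))
    (fun I => ha2 I.1 I.2)
    (fun I y hy hne => by
      obtain ⟨c, rfl⟩ := (hXm y).1 hy
      refine ha1 I.1 I.2 c fun hc => ?_
      obtain ⟨i, hi⟩ := hidx I c hc
      apply hne i
      show x c = x _
      rw [hi])
    (fun I I' hII' => by
      have h1 : ¬ I'.1 ⊆ I.1 := by
        intro h
        apply hII'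
        exact Subtype.ext (eq_of_subset_of_card_le h (by rw [I.2, I'.2])).symm
      rw [not_subset] at h1
      obtain ⟨m, hm, hm'⟩ := h1
      obtain ⟨i, hi⟩ := hidx I' (m, true) hm
      refine ⟨i, fun j hj => hm' ?_⟩
      have h2 : (m, true) = (I.1.orderEmbOfFin I.2 j.1, j.2) := by
        rw [← hi]
        exact xinj hj
      rw [Prod.mk.injEq] at h2
      rw [h2.1]
      exact orderEmbOfFin_mem I.1 I.2 j.1)
  obtain ⟨t, ht1, ht2, ht3, ht4⟩ := hG (2 * p) κ X U (by omega) hXg hU1 hU2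
  set V : Finset (E (2 * p)) := X ∪ univ.image t with hV
  have hVm : ∀ y, y ∈ V ↔ (y ∈ X ∨ ∃ I, y = t I) := by
    intro y
    constructor
    · intro h
      rcases mem_union.1 h with h | h
      · exact Or.inl h
      · obtain ⟨I, _, h1⟩ := mem_image.1 h
        exact Or.inr ⟨I, h1.symm⟩
    · rintro (h | ⟨I, rfl⟩)
      · exact mem_union_left _ h
      · exact mem_union_right _ (mem_image_of_mem _ (mem_univ I))
  have hVg : GenPos V := ht4 V hVm
  have hcκ : Fintype.card κ = k.choose p := by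
    show Fintype.card {I : Finset (Fin k) // I.card = p} = _
    rw [Fintype.card_finset_len, Fintype.card_fin]
  have hVc : V.card = 2 * k + k.choose p := by
    rw [hV, card_union_of_disjoint, hX, card_image_of_injective _ xinj,
      card_image_of_injective _ ht2, card_univ, card_univ, hcκ, Fintype.card_prod,
      Fintype.card_fin, Fintype.card_bool]
    · ring
    · rw [disjoint_left]
      intro y hy hy'
      rw [mem_image] at hy'
      obtain ⟨I, _, rfl⟩ := hy'
      exact ht3 I hy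
  obtain ⟨hspan, hsimp⟩ := hS (2 * p) V (by omega) hVg
  let t' : Finset (Fin k) → E (2 * p) := fun I => if h : I.card = p then t ⟨I, h⟩ else 0
  have ht' : ∀ I (h : I.card = p), t' I = t ⟨I, h⟩ := fun I h => dif_pos h
  have hxt : ∀ (I : κ) c, t I ≠ x c := by
    intro I c h
    apply ht3 I
    rw [h]
    exact (hXm _).2 ⟨c, rfl⟩
  have hface : ∀ I : Finset (Fin k), I.card = p → ∀ b : Fin k × Bool, b.1 ∈ I →
      IsFace V (insert (t' I) {y | ∃ c : Fin k × Bool, c.1 ∈ I ∧ c ≠ b ∧ y = x c}) := by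
    intro I hI b hb
    obtain ⟨i, hi⟩ := hidx ⟨I, hI⟩ b hb
    have h1 := hU3 t ht1 V hVm ⟨I, hI⟩ i
    have h2 : {y | ∃ j : Fin p × Bool, j ≠ i ∧ y = F ⟨I, hI⟩ j} =
        {y | ∃ c : Fin k × Bool, c.1 ∈ I ∧ c ≠ b ∧ y = x c} := by
      ext y
      constructor
      · rintro ⟨j, hj, rfl⟩
        refine ⟨_, orderEmbOfFin_mem I hI j.1, fun h => hj ?_, rfl⟩
        rw [← hi] at h
        exact hFinj ⟨I, hI⟩ (congrArg x h)
      · rintro ⟨c, hc, hcb, rfl⟩
        obtain ⟨j, hj⟩ := hidx ⟨I, hI⟩ c hc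
        refine ⟨j, fun h => hcb ?_, ?_⟩
        · rw [← hj, ← hi, h]
        · show x c = x _
          rw [← hj]
    rw [h2] at h1
    rw [ht' I hI]
    exact h1
  have hfaceV : ∀ I : Finset (Fin k), I.card = p → ∀ b : Fin k × Bool, b.1 ∈ I →
      insert (t' I) {y | ∃ c : Fin k × Bool, c.1 ∈ I ∧ c ≠ b ∧ y = x c} ≠ (V : Set (E (2 * p))) := by
    intro I hI b hb h
    have h1 : x b ∈ (V : Set (E (2 * p))) := by
      rw [mem_coe, hVm]
      exact Or.inl ((hXm _).2 ⟨b, rfl⟩)
    rw [← h] at h1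
    rcases h1 with h1 | ⟨c, _, hcb, h1⟩
    · rw [ht' I hI] at h1
      exact hxt _ _ h1.symm
    · exact hcb (xinj h1).symm
  have hvert : ∀ v ∈ V, v ∉ convexHull ℝ ((V : Set (E (2 * p))) \ {v}) := by
    intro v hv
    have key : ∀ I : Finset (Fin k), I.card = p → ∀ b : Fin k × Bool, b.1 ∈ I →
        v ∈ insert (t' I) {y | ∃ c : Fin k × Bool, c.1 ∈ I ∧ c ≠ b ∧ y = x c} →
        v ∉ convexHull ℝ ((V : Set (E (2 * p))) \ {v}) := fun I hI b hb hvA =>
      vert_of_face V _ (hface I hI b hb) (hsimp _ (hface I hI b hb) (hfaceV I hI b hb)) v hvA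
    rcases (hVm v).1 hv with h | ⟨I, rfl⟩
    · obtain ⟨c, rfl⟩ := (hXm v).1 h
      obtain ⟨I, hcI, hI⟩ : ∃ I : Finset (Fin k), {c.1} ⊆ I ∧ I.card = p := by
        obtain ⟨I, h1, _, h2⟩ := exists_subsuperset_card_eq (subset_univ ({c.1} : Finset (Fin k)))
          (n := p) (by rw [card_singleton]; omega) (by rw [card_univ, Fintype.card_fin]; omega)
        exact ⟨I, h1, h2⟩
      have hc : c.1 ∈ I := hcI (mem_singleton_self _)
      refine key I hI (c.1, !c.2) hc (Or.inr ⟨c, hc, fun h => ?_, rfl⟩)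
      have h1 := congrArg Prod.snd h
      simp at h1
    · have hne : I.1.Nonempty := by
        rw [← card_pos, I.2]
        omega
      obtain ⟨j, hj⟩ := hne
      refine key I.1 I.2 (j, true) hj (Or.inl ?_)
      rw [ht' I.1 I.2]
  refine ⟨V, x, t', ⟨hspan, hvert, hsimp⟩, ⟨hvert, fun c => ?_, fun I hI => ?_, xinj,
    fun I hI c => ?_, fun I J hI hJ h => ?_, fun v hv => ?_, hface⟩, hVc⟩
  · exact (hVm _).2 (Or.inl ((hXm _).2 ⟨c, rfl⟩))
  · rw [ht' I hI]
    exact (hVm _).2 (Or.inr ⟨_, rfl⟩)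
  · rw [ht' I hI]
    exact hxt _ _
  · rw [ht' I hI, ht' J hJ] at h
    exact congrArg Subtype.val (ht2 h)
  · rcases (hVm v).1 hv with h | ⟨I, h⟩
    · exact Or.inl ((hXm v).1 h)
    · exact Or.inr ⟨I.1, I.2, by rw [ht' I.1 I.2]; exact h⟩

end Pool.Agent.L7h23.IE
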